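import Pool.Agent.W5h88.HL.Union2

set_option autoImplicit false

/-!
# MP_997ab3_co, question 1: `H × ℤ × ℤ` has a harmonic labeling for every graph `H`

For every nonempty countable locally finite graph `H` (finite or infinite, connected or not) the graph
`G = H × ℤ` is not an example for question 1: `G × ℤ` has a harmonic labeling.

Notions used, from the imported file `Pool.Agent.W5h88.HL.Labeling`:

* `lineZ`: the two-way infinite path on `ℤ`;
* `IsHarmonicLabeling H φ`: `φ` is a bijection from the vertices of `H` onto `ℤ`, every vertex has
  finitely many and at least one neighbour, and `φ x` is the average of `φ` over the neighbours of `x`;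
* `G □ lineZ`: Mathlib's box product, the Cartesian product of the problem.
-/

namespace Pool.Agent.Results.MP_997ab3_co.LineProducts

open SimpleGraph Pool.Agent.W5h88.HL

/-- **`H × ℤ × ℤ` has a harmonic labeling for every nonempty countable locally finite graph `H`.** -/
theorem result (V : Type) [Countable V] [Nonempty V] (H : SimpleGraph V)
    (hlf : ∀ v, (H.neighborSet v).Finite) :
    ∃ φ : (V × ℤ) × ℤ → ℤ, IsHarmonicLabeling ((H □ lineZ) □ lineZ) φ := by
  let inst : H.LocallyFinite := fun v => (hlf v).fintype
  exact labeling_all H

end Pool.Agent.Results.MP_997ab3_co.LineProducts
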