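import Pool.Agent.W5h88.HL.Labeling
import Pool.Agent.W5h88.HL.Tree

set_option autoImplicit false

/-!
# MP_997ab3_co, question 1: harmonic labelings of `G × ℤ` for graphs `G` with spread components

Notions used (all from the imported files, repeated here in words):

* `lineZ`: the two-way infinite path on `ℤ`;
* `IsHarmonicLabeling H φ`: `φ` is a bijection from the vertices of `H` onto `ℤ`, every vertex has
  finitely many and at least one neighbour, and `φ x` is the average of `φ` over the neighbours of `x`;
* `G □ lineZ`: Mathlib's box product, the Cartesian product of the problem;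
* `Spread G`: for all vertices `w ≠ w'` and all `r` some vertex at distance exactly `r` from `w` has
  distance more than `r` from `w'`, and the number of these vertices tends to infinity with `r`,
  uniformly in `w ≠ w'`.
-/

namespace Pool.Agent.Results.MP_997ab3_co.SpreadGraphs

open SimpleGraph Pool.Agent.W5h88.HL

/-- connected graphs of the class -/
theorem connected_case {V : Type*} [Countable V] [Nontrivial V] (G : SimpleGraph V)
    (hlf : ∀ v, (G.neighborSet v).Finite) (hG : G.Connected) (hS : Spread G) :
    ∃ φ : V × ℤ → ℤ, IsHarmonicLabeling (G □ lineZ) φ := by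
  let inst : G.LocallyFinite := fun v => (hlf v).fintype
  obtain ⟨φ, h1, h2⟩ := main G hG hS
  exact ⟨φ, (labeling_iff G φ).2 ⟨h1, h2⟩⟩

/-- a graph with one vertex -/
theorem point_case {V : Type*} (G : SimpleGraph V) (hV : ∃ v : V, ∀ w, w = v) :
    ∃ φ : V × ℤ → ℤ, IsHarmonicLabeling (G □ lineZ) φ := by
  obtain ⟨v, hv⟩ := hV
  have hno : ∀ x y, ¬ G.Adj x y := by
    intro x y h
    rw [hv x, hv y] at h
    exact G.loopless.irrefl v h
  let inst : G.LocallyFinite := fun x => ((Set.finite_empty).subset
    (fun y hy => (hno x y hy).elim) : (G.neighborSet x).Finite).fintype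
  refine ⟨fun x => x.2, (labeling_iff G _).2 ⟨⟨?_, ?_⟩, ?_⟩⟩
  · rintro ⟨x, i⟩ ⟨y, j⟩ h
    have h' : i = j := h
    rw [hv x, hv y, h']
  · intro k
    exact ⟨(v, k), rfl⟩
  · intro w i
    have h1 : G.neighborFinset w = ∅ := by
      ext y
      rw [mem_neighborFinset]
      simp [hno]
    rw [← card_neighborFinset_eq_degree, h1]
    simp
    ring

/-- A countable locally finite graph `G` such that each component `C` of `G` is a single vertex, or is
`Spread`, or has a harmonic labeling of `C × ℤ`, has a harmonic labeling of `G × ℤ`; and trees with all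
degrees at least three are `Spread`. -/
theorem result (V : Type) [Countable V] [Nonempty V] (G : SimpleGraph V)
    (hlf : ∀ v, (G.neighborSet v).Finite) :
    ((∀ c : G.ConnectedComponent, (∃ v, c.supp = {v}) ∨ Spread (G.induce c.supp) ∨
        ∃ φ : c.supp × ℤ → ℤ, IsHarmonicLabeling (G.induce c.supp □ lineZ) φ) →
      ∃ φ : V × ℤ → ℤ, IsHarmonicLabeling (G □ lineZ) φ) ∧
    (G.IsTree → (∀ v, 3 ≤ (G.neighborSet v).ncard) →
      Spread G ∧ ∃ φ : V × ℤ → ℤ, IsHarmonicLabeling (G □ lineZ) φ) := by
  let inst : G.LocallyFinite := fun v => (hlf v).fintype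
  refine ⟨?_, ?_⟩
  · intro h
    refine labeling_union G fun c => ?_
    by_cases hc : ∃ v, c.supp = {v}
    · obtain ⟨v, hv⟩ := hc
      refine point_case _ ⟨⟨v, by rw [hv]; rfl⟩, fun w => Subtype.ext ?_⟩
      exact (Set.ext_iff.1 hv w.1).1 w.2
    · rcases (h c).resolve_left hc with hS | hS
      · have hnt : Nontrivial c.supp := by
          rw [Set.nontrivial_coe_sort]
          by_contra hn
          rw [Set.not_nontrivial_iff] at hn
          obtain ⟨v, hv⟩ := c.nonempty_supp
          exact hc ⟨v, hn.eq_singleton_of_mem hv⟩
        refine connected_case _ (fun x => ?_) ?_ hS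
        · exact ((hlf x.1).preimage (f := Subtype.val) Subtype.val_injective.injOn).subset
            fun y hy => hy
        · exact c.connected_toSimpleGraph
      · exact hS
  · intro hT hd
    have hdeg : ∀ v, 3 ≤ G.degree v := by
      intro v
      have h3 := hd v
      rwa [← coe_neighborFinset, Set.ncard_coe_finset, card_neighborFinset_eq_degree] at h3
    have hnt : Nontrivial V := by
      obtain ⟨v⟩ := ‹Nonempty V›
      have h3 := hdeg v
      rw [← card_neighborFinset_eq_degree] at h3
      obtain ⟨u, hu⟩ := Finset.card_pos.1 (lt_of_lt_of_le (by norm_num) h3)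
      rw [mem_neighborFinset] at hu
      exact ⟨v, u, G.ne_of_adj hu⟩
    have hS := spread_tree G hT hdeg
    exact ⟨hS, connected_case G hlf hT.connected hS⟩

end Pool.Agent.Results.MP_997ab3_co.SpreadGraphs
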