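import Pool.Agent.W5h88.HL.Prod4

set_option autoImplicit false

/-!
# MP_997ab3_co, question 1: `H × P × ℤ` for all `H` and all connected spread graphs `P`

Notions used, from the imported files:

* `lineZ`: the two-way infinite path on `ℤ`;
* `IsHarmonicLabeling H φ`: `φ` is a bijection from the vertices of `H` onto `ℤ`, every vertex has
  finitely many and at least one neighbour, and `φ x` is the average of `φ` over the neighbours of `x`;
* `G □ lineZ`: Mathlib's box product, the Cartesian product of the problem;
* `Spread G`: for all vertices `w ≠ w'` and all `r` some vertex at distance exactly `r` from `w` has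
  distance more than `r` from `w'`, and the number of these vertices tends to infinity with `r`,
  uniformly in `w ≠ w'`.
-/

namespace Pool.Agent.Results.MP_997ab3_co.SpreadProducts

open SimpleGraph Pool.Agent.W5h88.HL

/-- For every nonempty countable locally finite graph `H`: `(H × P) × ℤ` has a harmonic labeling for
every connected `Spread` graph `P`; in particular for every tree `P` with all degrees at least three. -/
theorem result (V : Type) [Countable V] [Nonempty V] (H : SimpleGraph V)
    (hlf : ∀ v, (H.neighborSet v).Finite) :
    (∀ (W : Type) [Countable W] [Nontrivial W] (P : SimpleGraph W),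
      (∀ v, (P.neighborSet v).Finite) → P.Connected → Spread P →
      ∃ φ : (V × W) × ℤ → ℤ, IsHarmonicLabeling ((H □ P) □ lineZ) φ) ∧
    (∀ (W : Type) [Countable W] (T : SimpleGraph W), T.IsTree →
      (∀ v, (T.neighborSet v).Finite ∧ 3 ≤ (T.neighborSet v).ncard) →
      ∃ φ : (V × W) × ℤ → ℤ, IsHarmonicLabeling ((H □ T) □ lineZ) φ) := by
  let inst : H.LocallyFinite := fun v => (hlf v).fintype
  refine ⟨?_, ?_⟩
  · intro W _ _ P hlf' hP hS
    let inst' : P.LocallyFinite := fun v => (hlf' v).fintype
    exact labeling_all4 H P hP hS
  · intro W _ T hT hd
    let inst' : T.LocallyFinite := fun v => (hd v).1.fintype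
    have hdeg : ∀ v, 3 ≤ T.degree v := by
      intro v
      have h3 := (hd v).2
      rwa [← coe_neighborFinset, Set.ncard_coe_finset, card_neighborFinset_eq_degree] at h3
    have hne : Nonempty W := hT.connected.nonempty
    have hnt : Nontrivial W := by
      obtain ⟨v⟩ := hne
      have h3 := hdeg v
      rw [← card_neighborFinset_eq_degree] at h3
      obtain ⟨u, hu⟩ := Finset.card_pos.1 (lt_of_lt_of_le (by norm_num) h3)
      rw [mem_neighborFinset] at hu
      exact ⟨v, u, T.ne_of_adj hu⟩
    exact labeling_all4 H T hT.connected (spread_tree T hT hdeg)

end Pool.Agent.Results.MP_997ab3_co.SpreadProducts
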